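import Mathlib
import Pool.Agent.H39.TO.Targets

/-!
# Solving the inequalities for `p ≥ 9`
-/

namespace Pool.Agent.H16.TOH.TAA

open Pool.Agent.H57.CP Pool.Agent.H39.TO

theorem cos_lower {p : ℕ} (hp : 9 ≤ p) : 938 / 1000 ≤ Real.cos (Real.pi / p) := by
  have h1 : Real.pi / p ≤ Real.pi / 9 := by
    apply div_le_div_of_nonneg_left Real.pi_pos.le (by norm_num)
    exact_mod_cast hp
  have h0 : 0 ≤ Real.pi / p := by positivity
  have hpi := Real.pi_lt_d2
  have h2 : Real.pi / p ≤ 0.35 := by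
    refine h1.trans ?_
    norm_num at hpi ⊢
    linarith
  have h3 := Real.one_sub_sq_div_two_le_cos (x := Real.pi / p)
  have h4 := pow_le_pow_left₀ h0 h2 2
  norm_num at h4
  linarith

theorem c2_lower {p : ℕ} (hp : 9 ≤ p) : 755 / 1000 ≤ c2 p := by
  unfold c2
  have h1 : 2 * Real.pi / p ≤ 2 * Real.pi / 9 := by
    apply div_le_div_of_nonneg_left (by positivity) (by norm_num)
    exact_mod_cast hp
  have h0 : 0 ≤ 2 * Real.pi / p := by positivity
  have hpi := Real.pi_lt_d2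
  have h2 : 2 * Real.pi / p ≤ 0.7 := by
    refine h1.trans ?_
    norm_num at hpi ⊢
    linarith
  have h3 := Real.one_sub_sq_div_two_le_cos (x := 2 * Real.pi / p)
  have h4 := pow_le_pow_left₀ h0 h2 2
  norm_num at h4
  linarith

theorem A1 (b u : ℝ) (hb : 1 / 2 < b) (h0 : 0 ≤ u) (h1 : u ≤ 1 / 2) : (b + u) * u ^ 2 < b := by
  have e1 := pow_le_pow_left₀ h0 h1 2
  have e2 : (b + u) * u ^ 2 ≤ (b + 1 / 2) * (1 / 2) ^ 2 :=
    mul_le_mul (by linarith only [h1]) e1 (by positivity) (by linarith only [hb])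
  linarith only [e2, hb]

theorem A2 (b t : ℝ) (hb : 1 / 2 < b) (h0 : 0 ≤ t) (h1 : t ≤ 1 / 2) :
    t ^ 2 * (2 - t) * (b + 1 - t) < b := by
  have e0 : t ^ 2 * (2 - t) * (b + 1 - t) = (t * (t * (2 - t))) * b + (t * (2 - t)) * (t * (1 - t)) := by
    ring
  have a1 := mul_nonneg (by linarith only [h1] : (0 : ℝ) ≤ 1 / 2 - t) (by linarith only [h1] : (0 : ℝ) ≤ 3 / 2 - t)
  have e1 : t * (2 - t) ≤ 3 / 4 := by linarith only [a1]
  have e1' : 0 ≤ t * (2 - t) := mul_nonneg h0 (by linarith only [h1])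
  have a2 := sq_nonneg (t - 1 / 2)
  have e2 : t * (1 - t) ≤ 1 / 4 := by linarith only [a2]
  have e2' : 0 ≤ t * (1 - t) := mul_nonneg h0 (by linarith only [h1])
  have e3 : t * (t * (2 - t)) ≤ 1 / 2 * (3 / 4) := mul_le_mul h1 e1 e1' (by norm_num)
  have e4 : (t * (2 - t)) * (t * (1 - t)) ≤ 3 / 4 * (1 / 4) := mul_le_mul e1 e2 e2' (by norm_num)
  have e5 : (t * (t * (2 - t))) * b ≤ 1 / 2 * (3 / 4) * b :=
    mul_le_mul_of_nonneg_right e3 (by linarith only [hb])
  rw [e0]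
  linarith only [e4, e5, hb]

theorem A3 (b t : ℝ) (hb : 1 / 2 < b) (hb1 : b ≤ 1) (h0 : 0 ≤ t) (h1 : t ≤ 67 / 1000) :
    t ^ 2 * (2 + t) * (b + 1 + t) < b := by
  have e1 := pow_le_pow_left₀ h0 h1 2
  have e2 : t ^ 2 * (2 + t) ≤ (67 / 1000) ^ 2 * 3 :=
    mul_le_mul e1 (by linarith only [h1]) (by linarith only [h0]) (by norm_num)
  have e3 : t ^ 2 * (2 + t) * (b + 1 + t) ≤ (67 / 1000) ^ 2 * 3 * 3 :=
    mul_le_mul e2 (by linarith only [h1, hb1]) (by linarith only [h0, hb]) (by norm_num)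
  linarith only [e3, hb]

theorem pf : T_TAA := by
  intro p τ hp h0 h1 h3 h4
  have hc := cos_lower hp
  have hb := c2_lower hp
  have hb1 : c2 p ≤ 1 := Real.cos_le_one _
  have hu1 : 1 + 2 * τ < 1067 / 1000 := by
    by_contra hcon
    push Not at hcon
    have h6 : (938 / 1000 : ℝ) * (1067 / 1000) ≤ Real.cos (Real.pi / p) * (1 + 2 * τ) :=
      mul_le_mul hc hcon (by norm_num) (by linarith only [hc])
    rw [add_comm] at h1
    linarith only [h1, h6]
  by_cases hz : 1 + 2 * τ = 0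
  · left; linarith only [hz]
  right
  by_contra hτ
  have k3 := h3.resolve_left hz
  have k4 := h4.resolve_left hτ
  rcases le_or_gt (1 + 2 * τ) (1 / 2) with hle | hgt
  · have := A1 (2 * c2 p - 1) (1 + 2 * τ) (by linarith only [hb]) (by linarith only [h0]) hle
    have e : 2 * (c2 p + τ) * (1 + 2 * τ) ^ 2 = (2 * c2 p - 1 + (1 + 2 * τ)) * (1 + 2 * τ) ^ 2 := by ring
    rw [e] at k3
    exact absurd (lt_of_le_of_lt k3 this) (lt_irrefl _)
  · rcases le_or_gt τ 0 with hle1 | hgt1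
    · have := A2 (2 * c2 p - 1) (-(2 * τ)) (by linarith only [hb]) (by linarith only [hle1]) (by linarith only [hgt])
      have e : 16 * τ ^ 2 * (1 + τ) * (c2 p + τ) =
        (-(2 * τ)) ^ 2 * (2 - (-(2 * τ))) * (2 * c2 p - 1 + 1 - (-(2 * τ))) := by ring
      rw [e] at k4
      exact absurd (lt_of_le_of_lt k4 this) (lt_irrefl _)
    · have := A3 (2 * c2 p - 1) (2 * τ) (by linarith only [hb]) (by linarith only [hb1]) (by linarith only [hgt1])
        (by linarith only [hu1])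
      have e : 16 * τ ^ 2 * (1 + τ) * (c2 p + τ) =
        (2 * τ) ^ 2 * (2 + 2 * τ) * (2 * c2 p - 1 + 1 + 2 * τ) := by ring
      rw [e] at k4
      exact absurd (lt_of_le_of_lt k4 this) (lt_irrefl _)

end Pool.Agent.H16.TOH.TAA
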