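import Mathlib
import Pool.Agent.H39.TO.Targets

/-!
# Solving the inequalities for `p = 5`
-/

namespace Pool.Agent.H16.TOH.TAC

open Pool.Agent.H57.CP Pool.Agent.H39.TO

theorem cos1 : Real.cos (Real.pi / 5) = (1 + √5) / 4 := Real.cos_pi_div_five

theorem sq5 : (√5 : ℝ) ^ 2 = 5 := Real.sq_sqrt (by norm_num)

theorem sqpos : (0 : ℝ) < √5 := by positivity

theorem sq5lo : (2236 / 1000 : ℝ) < √5 := by
  rw [Real.lt_sqrt (by norm_num)]; norm_num

theorem sq5hi : (√5 : ℝ) < 2237 / 1000 := by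
  rw [Real.sqrt_lt' (by norm_num)]; norm_num

theorem cos2 : Real.cos (2 * Real.pi / 5) = (√5 - 1) / 4 := by
  have : 2 * Real.pi / 5 = 2 * (Real.pi / 5) := by ring
  rw [this, Real.cos_two_mul, cos1]
  have := sq5
  linear_combination this / 8

theorem c25 : c2 5 = (√5 - 1) / 4 := by
  unfold c2
  exact_mod_cast cos2

theorem cos3 : Real.cos (3 * Real.pi / 5) = -((√5 - 1) / 4) := by
  have : 3 * Real.pi / 5 = Real.pi - 2 * Real.pi / 5 := by ring
  rw [this, Real.cos_pi_sub, cos2]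

theorem cos4 : Real.cos (4 * Real.pi / 5) = -((1 + √5) / 4) := by
  have : 4 * Real.pi / 5 = Real.pi - Real.pi / 5 := by ring
  rw [this, Real.cos_pi_sub, cos1]

theorem sin3 : Real.sin (3 * Real.pi / 5) = Real.sin (2 * Real.pi / 5) := by
  have : 3 * Real.pi / 5 = Real.pi - 2 * Real.pi / 5 := by ring
  rw [this, Real.sin_pi_sub]

theorem sin4 : Real.sin (4 * Real.pi / 5) = Real.sin (Real.pi / 5) := by
  have : 4 * Real.pi / 5 = Real.pi - Real.pi / 5 := by ring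
  rw [this, Real.sin_pi_sub]

theorem s12 : Real.sin (Real.pi / 5) * Real.sin (2 * Real.pi / 5) = √5 / 4 := by
  have h : 2 * Real.pi / 5 = 2 * (Real.pi / 5) := by ring
  have h1 := Real.sin_sq_add_cos_sq (Real.pi / 5)
  rw [h, Real.sin_two_mul]
  rw [cos1] at h1 ⊢
  have h2 : Real.sin (Real.pi / 5) ^ 2 = 1 - ((1 + √5) / 4) ^ 2 := by linarith
  have h3 : Real.sin (Real.pi / 5) * (2 * Real.sin (Real.pi / 5) * ((1 + √5) / 4)) =
    2 * Real.sin (Real.pi / 5) ^ 2 * ((1 + √5) / 4) := by ring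
  rw [h3, h2]
  have := sq5
  linear_combination (-3 / 32 - √5 / 32) * this

theorem f12 (C : ℝ) : fk 5 C 1 2 = C * (√5 / 4) - 1 / 4 := by
  unfold fk
  have e1 : ((1 : ℕ) : ℝ) * Real.pi / (5 : ℕ) = Real.pi / 5 := by push_cast; ring
  have e2 : ((2 : ℕ) : ℝ) * Real.pi / (5 : ℕ) = 2 * Real.pi / 5 := by push_cast; ring
  rw [e1, e2, mul_assoc, s12, cos1, cos2]
  have := sq5
  linear_combination -this / 16

theorem f13 (C : ℝ) : fk 5 C 1 3 = C * (√5 / 4) + 1 / 4 := by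
  unfold fk
  have e1 : ((1 : ℕ) : ℝ) * Real.pi / (5 : ℕ) = Real.pi / 5 := by push_cast; ring
  have e2 : ((3 : ℕ) : ℝ) * Real.pi / (5 : ℕ) = 3 * Real.pi / 5 := by push_cast; ring
  rw [e1, e2, mul_assoc, sin3, s12, cos1, cos3]
  have := sq5
  linear_combination this / 16

theorem f24 (C : ℝ) : fk 5 C 2 4 = C * (√5 / 4) + 1 / 4 := by
  unfold fk
  have e1 : ((2 : ℕ) : ℝ) * Real.pi / (5 : ℕ) = 2 * Real.pi / 5 := by push_cast; ring
  have e2 : ((4 : ℕ) : ℝ) * Real.pi / (5 : ℕ) = 4 * Real.pi / 5 := by push_cast; ring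
  rw [e1, e2, mul_assoc, sin4, mul_comm (Real.sin (2 * Real.pi / 5)), s12, cos2, cos4]
  have := sq5
  linear_combination this / 16

theorem f34 (C : ℝ) : fk 5 C 3 4 = C * (√5 / 4) - 1 / 4 := by
  unfold fk
  have e1 : ((3 : ℕ) : ℝ) * Real.pi / (5 : ℕ) = 3 * Real.pi / 5 := by push_cast; ring
  have e2 : ((4 : ℕ) : ℝ) * Real.pi / (5 : ℕ) = 4 * Real.pi / 5 := by push_cast; ring
  rw [e1, e2, mul_assoc, sin4, sin3, mul_comm (Real.sin (2 * Real.pi / 5)), s12, cos3, cos4]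
  have := sq5
  linear_combination -this / 16

theorem fsymm (C : ℝ) (k k' : ℕ) : fk 5 C k k' = fk 5 C k' k := by
  unfold fk; ring

theorem part1 (τ : ℝ) (h0 : 0 ≤ τ) (h1 : Real.cos (Real.pi / 5) * (2 * τ + 1) < 1)
    (h2 : τ = 0 ∨ c2 5 ≤ 8 * τ ^ 2 * (1 + τ) * (c2 5 + τ)) : τ = 0 := by
  rcases h2 with h2 | h2
  · exact h2
  · exfalso
    rw [cos1] at h1
    rw [c25] at h2
    have hlo := sq5lo
    have hhi := sq5hi
    obtain ⟨s, hs⟩ : ∃ s : ℝ, s = √5 := ⟨_, rfl⟩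
    rw [← hs] at h1 h2 hlo hhi
    have ht : τ < 1 / 8 := by
      by_contra hcon
      push Not at hcon
      nlinarith
    have e1 : τ ^ 2 ≤ 1 / 64 := by nlinarith
    have e2 : 8 * τ ^ 2 * (1 + τ) ≤ 1 / 8 * 2 :=
      mul_le_mul (by linarith) (by linarith) (by linarith) (by norm_num)
    have e3 : 8 * τ ^ 2 * (1 + τ) * ((s - 1) / 4 + τ) ≤ 1 / 8 * 2 * (1 / 2) :=
      mul_le_mul e2 (by linarith) (by linarith) (by norm_num)
    linarith

theorem part2 (C : ℝ) (k k' : ℕ) (h1 : 1 + c2 5 ≤ (1 - c2 5) * C) (hk : 0 < k) (_hk' : 0 < k')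
    (hkk : k + k' < 5) (hlt : k < k') (hf : fk 5 C k k' < 1) : k = 1 ∧ k' = 2 := by
  have hk1 : k = 1 := by omega
  subst hk1
  refine ⟨rfl, ?_⟩
  by_contra hne
  have hk3 : k' = 3 := by omega
  subst hk3
  rw [f13] at hf
  rw [c25] at h1
  have hlo := sq5lo
  have hhi := sq5hi
  obtain ⟨s, hs⟩ : ∃ s : ℝ, s = √5 := ⟨_, rfl⟩
  rw [← hs] at h1 hf hlo hhi
  have hC : 3 / 2 < C := by
    by_contra hcon
    push Not at hcon
    nlinarith
  nlinarith

theorem part3 (C : ℝ) (k k' : ℕ) (hC : 0 ≤ C) (hC2 : 5 * C ^ 2 = 1) (hk : 0 < k) (hk5 : k < 5)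
    (hk' : 0 < k') (hk5' : k' < 5) (hne : k ≠ k') (hsum : k + k' ≠ 5) :
    (fk 5 C k k') ^ 2 = 0 ∨ (fk 5 C k k') ^ 2 = 1 / 4 := by
  have hCs : C * (√5 / 4) = 1 / 4 := by
    have h1 : (C * √5) ^ 2 = 1 := by rw [mul_pow, sq5]; linarith
    have h2 : 0 ≤ C * √5 := mul_nonneg hC sqpos.le
    have h3 : C * √5 = 1 := by nlinarith
    linarith
  have a12 : (fk 5 C 1 2) ^ 2 = 0 := by rw [f12, hCs]; norm_num
  have a13 : (fk 5 C 1 3) ^ 2 = 1 / 4 := by rw [f13, hCs]; norm_num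
  have a24 : (fk 5 C 2 4) ^ 2 = 1 / 4 := by rw [f24, hCs]; norm_num
  have a34 : (fk 5 C 3 4) ^ 2 = 0 := by rw [f34, hCs]; norm_num
  interval_cases k <;> interval_cases k' <;> first
    | exact absurd rfl hne
    | exact absurd rfl hsum
    | exact Or.inl a12
    | exact Or.inr a13
    | exact Or.inr a24
    | exact Or.inl a34
    | exact Or.inl (by rw [fsymm]; exact a12)
    | exact Or.inr (by rw [fsymm]; exact a13)
    | exact Or.inr (by rw [fsymm]; exact a24)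
    | exact Or.inl (by rw [fsymm]; exact a34)

theorem pf : T_TAC := ⟨part1, part2, part3⟩

end Pool.Agent.H16.TOH.TAC
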